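import Pool.Agent.N554.HKS.Def

/-!
# HK/S3 (helper787, project HK of helper554): the parity of images
-/

set_option autoImplicit false

namespace Pool.Agent.N787.HKS

open Pool.Agent.N554.HKS

theorem par_append (s t : List (Fin 6)) (y : Fin 6) : par (s ++ t) y = par s y + par t y := by
  unfold par
  rw [List.count_append]
  push_cast
  rfl

theorem par_cons (a : Fin 6) (s : List (Fin 6)) (y : Fin 6) :
    par (a :: s) y = par s y + if a = y then 1 else 0 := by
  unfold par
  rw [List.count_cons]
  by_cases h : a = y
  · simp [h]
  · simp [h]

theorem par_ext (s : List (Fin 6)) (y : Fin 6) :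
    par (ext theta s) y = ∑ x, par s x * par (theta x) y := by
  induction s with
  | nil => simp [ext, par]
  | cons a s ih =>
    have h1 : ext theta (a :: s) = theta a ++ ext theta s := by
      unfold ext
      rw [List.flatMap_cons]
    rw [h1, par_append, ih]
    simp only [par_cons, add_mul, Finset.sum_add_distrib, ite_mul, one_mul, zero_mul,
      Finset.sum_ite_eq, Finset.mem_univ, if_true]
    rw [add_comm]

theorem fin0 : ∀ y : Fin 6, ∑ x, v0 x * par (theta x) y = v1 y := by
  decide +kernel

theorem fin1 : ∀ y : Fin 6, ∑ x, v1 x * par (theta x) y = v1 y := by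
  decide +kernel

theorem S3_proof : S3 := by
  rintro s (h | h)
  · funext y
    rw [par_ext, h, fin0]
  · funext y
    rw [par_ext, h, fin1]

end Pool.Agent.N787.HKS
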